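import Pool.Agent.TH714.L2.Bet

set_option autoImplicit false
set_option linter.unusedSectionVars false

open scoped InnerProductSpace InnerProduct ENNReal
open Filter Topology

/-!
The statements BL-A to BL-F in the form used for `MP_42532b_al`.
-/

namespace Pool.Agent.TH714.L2

open Pool.Agent.H919R3.L2 Pool.Agent.H919R3.Stmt

theorem tau_range_le {H I J : Type} [Group H] [Fintype I] [Fintype J] (T : EE H I →L[ℂ] EE H J)
    (hT : Eqv T) (a : I → EE H I) (ha : ∀ i, T (a i) = T (dl ((1 : H), i)))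
    (P : Submodule ℂ (EE H J)) [P.HasOrthogonalProjection]
    (hP : P = (LinearMap.range (T : EE H I →ₗ[ℂ] EE H J)).topologicalClosure) :
    tau P ≤ ∑ i, ‖a i‖ ^ 2 := by
  have hcl : IsClosed ((LinearMap.ker (T : EE H I →ₗ[ℂ] EE H J) : Submodule ℂ (EE H I)) :
      Set (EE H I)) := T.isClosed_ker
  have hc : CompleteSpace (LinearMap.ker (T : EE H I →ₗ[ℂ] EE H J)) := hcl.completeSpace_coe
  set K := LinearMap.ker (T : EE H I →ₗ[ℂ] EE H J) with hK
  have h1 := dm_range_le T hT Kᗮ (by
    intro x hx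
    rw [Submodule.orthogonal_orthogonal] at hx
    exact hx)
  have h2 : tau P = dm (LinearMap.range (T : EE H I →ₗ[ℂ] EE H J)) := tau_congr hP
  rw [h2]
  refine h1.trans ?_
  unfold tau
  refine Finset.sum_le_sum fun i _ => ?_
  have h3 : Kᗮ.starProjection (dl ((1 : H), i)) = Kᗮ.starProjection (a i) := by
    rw [← sub_eq_zero, ← map_sub, Submodule.starProjection_apply_eq_zero_iff,
      Submodule.orthogonal_orthogonal]
    change T (dl ((1 : H), i) - a i) = 0
    rw [map_sub, ha, sub_self]
  rw [h3]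
  gcongr
  exact Submodule.norm_starProjection_apply_le _ _

theorem tau_union_le {H J κ : Type} [Group H] [Fintype J] [Nonempty κ]
    (W : κ → Submodule ℂ (EE H J)) (hW : Directed (· ≤ ·) W)
    [∀ k, (W k).HasOrthogonalProjection] (c : ℝ) (hc : ∀ k, tau (W k) ≤ c)
    (P : Submodule ℂ (EE H J)) [P.HasOrthogonalProjection]
    (hP : P = (⨆ k, W k).topologicalClosure) : tau P ≤ c := by
  let _ : Preorder κ := Preorder.lift W
  have : IsDirectedOrder κ := ⟨fun i j => by
    obtain ⟨k, h1, h2⟩ := hW i j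
    exact ⟨k, h1, h2⟩⟩
  have h1 : tau P = dm (⨆ k, W k) := tau_congr hP
  rw [h1]
  refine le_of_tendsto (dm_iSup_tendsto W fun i j h => h) ?_
  filter_upwards with k
  rw [dm_eq_tau (W k)]
  · exact hc k
  · rw [← Submodule.orthogonal_orthogonal (W k)]
    exact Submodule.isClosed_orthogonal _

theorem lower_rel
    {G α ι : Type} [Group G] (S : Finset G) (φ : FreeGroup α →* G) (hφ : Function.Surjective φ)
    (e : α ≃ S) (he : ∀ i, φ (FreeGroup.of i) = (e i : G))
    (w : ι → FreeGroup α) (N : ι → ℕ) (hN : ∀ i, 1 ≤ N i) (hord : ∀ i, orderOf (φ (w i)) = N i)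
    (hker : ∀ K : Subgroup (FreeGroup α), K.Normal → (∀ i, w i ^ N i ∈ K) → φ.ker ≤ K)
    (c : ℝ) (hc : ∀ s : Finset ι, ∑ i ∈ s, (1 : ℝ) / N i ≤ c) :
    (S.card : ℝ) - 1 - c ≤ b1l2 S := by
  have hph : ph S e = φ := by
    apply FreeGroup.ext_hom
    intro a
    rw [ph_of, he]
  have h1 : ∀ i, orderOf (ph S e (w i)) = N i := fun i => by rw [hph, hord]
  have h2 := dm_finCycles_le S e (by rw [hph]; exact hφ) e.surjective w
    (by
      rw [hph]
      apply hker _ Subgroup.normalClosure_normal
      intro i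
      apply Subgroup.subset_normalClosure
      exact ⟨i, by simp only [hord]⟩)
    (fun i => by rw [h1]; exact hN i) c
    (fun s => by simp only [h1]; exact hc s)
  have h3 := b1l2_ge_orth S
  rw [tau_finCycles_orth] at h3
  linarith

theorem b1l2_fin {G : Type} [Group G] [Finite G] (S : Finset G) : b1l2 S = 0 := by
  have h1 : cycles S = finCycles S := by
    apply le_antisymm
    · intro f hf
      exact ⟨hf, Set.toFinite _⟩
    · intro f hf
      exact hf.1
  have h2 : harm S = ⊥ := by
    unfold harm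
    rw [h1, eq_bot_iff]
    rintro f ⟨h3, h4⟩
    have : ⟪f, f⟫_ℂ = 0 := Submodule.inner_right_of_mem_orthogonal h3 h4
    exact inner_self_eq_zero.1 this
  unfold b1l2
  rw [tau_congr h2]
  unfold tau
  simp

theorem b1l2_lt {G : Type} [Group G] [Infinite G] (S : Finset G)
    (hS : Subgroup.closure (S : Set G) = ⊤) (s : G) (hs : s ∈ S) (hfin : IsOfFinOrder s) :
    b1l2 S < S.card - 1 := by
  rw [← l2Betti_eq]
  exact l2Betti_lt S hS s hs hfin

/-- The first `ℓ²`-Betti number computed from a finite generating set does not depend on it. -/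
theorem l2Betti_indep {G : Type} [Group G] (S S' : Finset G)
    (hS : Subgroup.closure (S : Set G) = ⊤) (hS' : Subgroup.closure (S' : Set G) = ⊤) :
    l2Betti S = l2Betti S' := by
  rw [l2Betti_eq, l2Betti_eq]
  rcases finite_or_infinite G with h | h
  · rw [b1l2_fin, b1l2_fin]
  · exact b1l2_indep S S' hS hS'

end Pool.Agent.TH714.L2
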