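import Pool.Agent.TH714.L2.Cyc

set_option autoImplicit false
set_option linter.unusedSectionVars false

open scoped InnerProductSpace InnerProduct ENNReal
open Filter Topology

/-!
Bounds for the first `ℓ²`-Betti number and its independence of the generating set.
-/

namespace Pool.Agent.TH714.L2

open Pool.Agent.H919R3.L2 Pool.Agent.H919R3.Stmt

section
variable {H X : Type} [Group H] (S : Finset H) (g : X → S)

/-- The pairing of a gradient with the chain of a word. -/
theorem inner_DD_of_pot (f : EE H S) (F : H → ℂ)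
    (hF : ∀ (h : H) (s : S), f (h, s) = F (h * s) - F h) (w : FreeGroup X) (h : H) :
    ⟪tr h (DD S g w), f⟫_ℂ = F (h * ph S g w) - F h := by
  induction w using FreeGroup.induction_on generalizing h with
  | C1 =>
    rw [DD_one, map_one, mul_one, sub_self]
    have : tr h (0 : EE H S) = 0 := by ext x; rfl
    rw [this, inner_zero_left]
  | of x => rw [DD_of, ph_of, tr_dl, mul_one, inner_dl_left, hF]
  | inv_of x hx =>
    rw [DD_inv, map_inv]
    have e : tr h (-tr (ph S g (FreeGroup.of x))⁻¹ (DD S g (FreeGroup.of x)))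
        = - tr (h * (ph S g (FreeGroup.of x))⁻¹) (DD S g (FreeGroup.of x)) := by
      rw [← tr_tr]; ext y; rfl
    rw [e, inner_neg_left, hx, inv_mul_cancel_right]
    ring
  | mul u v hu hv =>
    rw [DD_mul, tr_add, inner_add_left, tr_tr, hu, hv, map_mul, mul_assoc]
    ring

theorem tr_zero' {J : Type} (k : H) : tr k (0 : EE H J) = 0 := by ext x; rfl

/-- The boundary of the chain of a word. -/
theorem adj_T0_DD (w : FreeGroup X) :
    ContinuousLinearMap.adjoint (T0 S) (DD S g w) = dl (ph S g w, ()) - dl (1, ()) := by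
  have hadj := (T0_eqv S).adjoint
  induction w using FreeGroup.induction_on with
  | C1 => rw [DD_one, map_one, map_zero, sub_self]
  | of x =>
    rw [DD_of, ph_of]
    apply ext_inner_left ℂ
    intro v
    rw [ContinuousLinearMap.adjoint_inner_right, inner_dl_right, inner_sub_right, inner_dl_right,
      inner_dl_right, T0_apply, map_sub, one_mul]
  | inv_of x hx =>
    rw [DD_inv, map_neg, hadj, hx, map_inv, tr_sub, tr_dl, tr_dl, inv_mul_cancel, mul_one,
      neg_sub]
  | mul u v hu hv =>
    rw [DD_mul, map_add, hadj, hu, hv, map_mul, tr_sub, tr_dl, tr_dl, mul_one]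
    abel

theorem FS_finite {J : Type} (f : EE H J) (hf : f ∈ FS (H := H) J) :
    (Function.support fun x => f x).Finite := by
  unfold FS at hf
  induction hf using Submodule.span_induction with
  | mem x hx =>
    obtain ⟨y, rfl⟩ := hx
    refine (Set.finite_singleton y).subset ?_
    intro z hz
    by_contra hc
    exact hz (dl_apply_ne _ _ hc)
  | zero => simp [Function.support]
  | add x y _ _ hx hy =>
    refine (hx.union hy).subset ?_
    intro z hz
    simp only [Function.mem_support, lp.coeFn_add, Pi.add_apply, Set.mem_union] at hz ⊢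
    by_contra hc
    push Not at hc
    exact hz (by rw [hc.1, hc.2, add_zero])
  | smul a x _ hx =>
    refine hx.subset ?_
    intro z hz
    simp only [Function.mem_support, lp.coeFn_smul, Pi.smul_apply, smul_eq_mul] at hz ⊢
    intro h0
    exact hz (by rw [h0, mul_zero])

theorem DD_mem_finCycles (w : FreeGroup X) (hw : ph S g w = 1) : DD S g w ∈ finCycles S := by
  refine ⟨?_, FS_finite _ (DD_mem_FS S g w)⟩
  rw [mem_cycles_iff, adj_T0_DD, hw, sub_self]

theorem cycles_inv : Inv (cycles S) := by
  intro k f hf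
  rw [mem_cycles_iff] at hf ⊢
  rw [(T0_eqv S).adjoint, hf, tr_zero']

theorem finCycles_inv : Inv (finCycles S) := by
  intro k f hf
  refine ⟨cycles_inv S k f hf.1, ?_⟩
  have h1 : Function.Injective (trE (H := H) S k) := (trE (H := H) S k).injective
  exact hf.2.preimage (h1.injOn)

/-- An element orthogonal to the finite cycles has a potential. -/
theorem exists_pot_of_orth (hsurj : Function.Surjective (ph S g)) (hgs : Function.Surjective g)
    (f : EE H S) (hf : f ∈ (finCycles S)ᗮ) :
    ∃ F : H → ℂ, ∀ (h : H) (s : S), f (h, s) = F (h * s) - F h := by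
  refine exists_pot S g hsurj hgs ((ph S g).ker : Set (FreeGroup X))
    (Subgroup.subset_normalClosure) f (fun r hr => hr) ?_
  intro r hr h
  exact Submodule.inner_right_of_mem_orthogonal
    (finCycles_inv S h _ (DD_mem_finCycles S g r hr)) hf

theorem ph_surj (hS : Subgroup.closure (S : Set H) = ⊤) :
    Function.Surjective (ph S (id : S → S)) := by
  rw [← MonoidHom.range_eq_top, eq_top_iff, ← hS, Subgroup.closure_le]
  intro s hs
  exact ⟨FreeGroup.of (⟨s, hs⟩ : S), ph_of S id ⟨s, hs⟩⟩

end

section
variable {H : Type} [Group H]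

/-- The operator which transports gradients from `S` to `S'`. -/
theorem exists_transport (S S' : Finset H) (hS : Subgroup.closure (S : Set H) = ⊤) :
    ∃ T : EE H S →L[ℂ] EE H S', Eqv T ∧ ∀ (f : EE H S) (F : H → ℂ),
      (∀ (h : H) (s : S), f (h, s) = F (h * s) - F h) →
      ∀ (h : H) (s : S'), T f (h, s) = F (h * s) - F h := by
  classical
  choose w hw using fun s' : S' => ph_surj S hS (s' : H)
  choose U hU hUd using fun s' : S' => exists_opv (H := H) (J := S) (DD S id (w s'))
    (DD_mem_FS S id _)
  choose V hV hVf _ using fun s' : S' => exists_rmul' (H := H) (J := S') 1 s'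
  refine ⟨∑ s' : S', (V s').comp (ContinuousLinearMap.adjoint (U s')), ?_, ?_⟩
  · intro k f
    have e : ∀ z : EE H S, (∑ s' : S', (V s').comp (ContinuousLinearMap.adjoint (U s'))) z
        = ∑ s' : S', V s' (ContinuousLinearMap.adjoint (U s') z) := by
      intro z
      rw [_root_.sum_apply]
      rfl
    rw [e, e]
    have e2 : ∀ (s : Finset S') (z : S' → EE H S'), tr k (∑ s' ∈ s, z s') = ∑ s' ∈ s, tr k (z s') := by
      intro s z
      induction s using Finset.induction_on with
      | empty => simp [tr_zero']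
      | insert a s ha ih => rw [Finset.sum_insert ha, Finset.sum_insert ha, tr_add, ih]
    rw [e2]
    refine Finset.sum_congr rfl fun s' _ => ?_
    rw [(hU s').adjoint, hV]
  · intro f F hF h s
    rw [_root_.sum_apply]
    simp only [lp.coeFn_sum, Finset.sum_apply]
    rw [Finset.sum_eq_single s]
    · change V s (ContinuousLinearMap.adjoint (U s) f) (h, s) = _
      rw [hVf, if_pos rfl, inv_one, mul_one, ← inner_dl_left,
        ContinuousLinearMap.adjoint_inner_right, hUd, inner_DD_of_pot S id f F hF, hw]
    · intro t _ ht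
      change V t (ContinuousLinearMap.adjoint (U t) f) (h, s) = _
      rw [hVf, if_neg ht.symm]
    · intro hh; exact absurd (Finset.mem_univ s) hh

theorem tau_orth_le (S S' : Finset H) (hS : Subgroup.closure (S : Set H) = ⊤)
    (hS' : Subgroup.closure (S' : Set H) = ⊤) :
    tau (finCycles S')ᗮ ≤ tau (finCycles S)ᗮ := by
  obtain ⟨T, hT, hTF⟩ := exists_transport S S' hS
  obtain ⟨T', -, hTF'⟩ := exists_transport S' S hS'
  let R : EE H S →L[ℂ] EE H S' := T.comp (finCycles S)ᗮ.starProjection
  have hR : Eqv R := by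
    intro k f
    change T ((finCycles S)ᗮ.starProjection (tr k f)) = _
    rw [(finCycles_inv S).orth.proj, hT]
    rfl
  have h1 := dm_range_le R hR (finCycles S)ᗮ (by
    intro x hx
    change T ((finCycles S)ᗮ.starProjection x) = 0
    rw [(Submodule.starProjection_apply_eq_zero_iff _).2 hx, map_zero])
  refine le_trans (tau_mono _ _ ?_) h1
  refine le_trans ?_ (Submodule.le_topologicalClosure _)
  intro f hf
  obtain ⟨F, hF⟩ := exists_pot_of_orth S' id (ph_surj S' hS') Function.surjective_id f hf
  have h2 := hTF' f F hF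
  have h3 : T' f ∈ (finCycles S)ᗮ := grad_orth S F _ h2
  refine ⟨T' f, ?_⟩
  change T ((finCycles S)ᗮ.starProjection (T' f)) = f
  rw [Submodule.starProjection_eq_self_iff.2 h3]
  ext ⟨h, s⟩
  rw [hTF _ F h2, hF]

variable (S : Finset H)

theorem T0_inj [Infinite H] (hS : Subgroup.closure (S : Set H) = ⊤) :
    Function.Injective (T0 S) := by
  rw [injective_iff_map_eq_zero]
  intro f hf
  have h1 : ∀ (h : H) (s : H), s ∈ S → f (h * s, ()) = f (h, ()) := by
    intro h s hs
    have h2 := T0_apply S f h ⟨s, hs⟩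
    rw [hf] at h2
    have h3 : (0 : EE H S) (h, ⟨s, hs⟩) = 0 := rfl
    rw [h3] at h2
    exact sub_eq_zero.1 h2.symm
  have h2 : ∀ s : H, ∀ h : H, f (h * s, ()) = f (h, ()) := by
    intro s
    have hs : s ∈ Subgroup.closure (S : Set H) := by rw [hS]; trivial
    induction hs using Subgroup.closure_induction with
    | mem s hs => exact fun h => h1 h s hs
    | one => intro h; rw [mul_one]
    | mul s t _ _ ihs iht => intro h; rw [← mul_assoc, iht, ihs]
    | inv s _ ih =>
      intro h
      have := ih (h * s⁻¹)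
      rw [inv_mul_cancel_right] at this
      exact this.symm
  have h3 : ∀ h : H, f (h, ()) = f (1, ()) := by
    intro h
    have := h2 h 1
    rw [one_mul] at this
    exact this
  have h4 : Tendsto (fun n : ℕ => f (Infinite.natEmbedding H n, ())) atTop (𝓝 0) := by
    refine tendsto_zero_of_inj (fun x => f x) f.2
      (fun n : ℕ => (Infinite.natEmbedding H n, ())) ?_
    intro a b hab
    exact (Infinite.natEmbedding H).injective (Prod.ext_iff.1 hab).1
  simp only [h3] at h4
  have h5 : f (1, ()) = 0 := tendsto_nhds_unique tendsto_const_nhds h4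
  ext ⟨h, u⟩
  change f (h, ()) = 0
  rw [h3, h5]

/-- The lower estimate, valid for all groups. -/
theorem b1l2_ge_orth : tau (finCycles S)ᗮ - 1 ≤ b1l2 S := by
  have h1 := tau_le_card (T0 S) (T0_eqv S) _ rfl
  have h4 : (LinearMap.range (T0 S : EE H Unit →ₗ[ℂ] EE H S)).topologicalClosure
      ≤ (finCycles S)ᗮ := by
    apply Submodule.topologicalClosure_minimal _ _ (Submodule.isClosed_orthogonal _)
    rintro _ ⟨f, rfl⟩
    exact grad_orth S (fun h => f (h, ())) _ (fun h s => T0_apply S f h s)
  have h6 := tau_sub _ _ (harm S) h4 (by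
    unfold harm
    rw [cycles_eq, Submodule.orthogonal_closure, inf_comm])
  simp only [Fintype.card_unit, Nat.cast_one] at h1
  unfold b1l2
  rw [h6]
  linarith

/-- The formula `β = |S| - 1 - dim (finite cycles)`. -/
theorem b1l2_eq [Infinite H] (hS : Subgroup.closure (S : Set H) = ⊤) :
    b1l2 S = tau (finCycles S)ᗮ - 1 := by
  have h1 := tau_le_card (T0 S) (T0_eqv S) _ rfl
  have h2 := card_le_tau (T0 S) (T0_eqv S) (T0_inj S hS) _ rfl
  have h4 : (LinearMap.range (T0 S : EE H Unit →ₗ[ℂ] EE H S)).topologicalClosure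
      ≤ (finCycles S)ᗮ := by
    apply Submodule.topologicalClosure_minimal _ _ (Submodule.isClosed_orthogonal _)
    rintro _ ⟨f, rfl⟩
    exact grad_orth S (fun h => f (h, ())) _ (fun h s => T0_apply S f h s)
  have h6 := tau_sub _ _ (harm S) h4 (by
    unfold harm
    rw [cycles_eq, Submodule.orthogonal_closure, inf_comm])
  simp only [Fintype.card_unit, Nat.cast_one] at h1 h2
  unfold b1l2
  rw [h6]
  linarith

theorem tau_finCycles_orth : tau (finCycles S)ᗮ = S.card - dm (finCycles S) := by
  have h1 : (finCycles S)ᗮ = ((finCycles S).topologicalClosure)ᗮ :=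
    (Submodule.orthogonal_closure _).symm
  rw [tau_congr h1, tau_orth, Fintype.card_coe]
  rfl

/-- Independence of the generating set. -/
theorem b1l2_indep [Infinite H] (S S' : Finset H) (hS : Subgroup.closure (S : Set H) = ⊤)
    (hS' : Subgroup.closure (S' : Set H) = ⊤) : b1l2 S = b1l2 S' := by
  rw [b1l2_eq S hS, b1l2_eq S' hS']
  have h1 := tau_orth_le S S' hS hS'
  have h2 := tau_orth_le S' S hS' hS
  linarith

theorem mem_of_isHarmonic (f : H × S → ℂ) (hf : IsHarmonic S f) :
    ∃ F : EE H S, F ∈ harm S ∧ ∀ x, F x = f x := by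
  have hm : Memℓp f 2 := (memlp_two_iff f).2 hf.square_summable
  let F : EE H S := ⟨f, hm⟩
  have horth : F ∈ (finCycles S)ᗮ → F ∈ harm S := fun h => ⟨hf.cycle, h⟩
  refine ⟨F, horth ?_, fun x => rfl⟩
  rw [Submodule.mem_orthogonal]
  rintro z ⟨hz, hfin⟩
  rw [lp.inner_eq_tsum, ← hf.orthogonal (fun x => z x) hfin hz]
  have hfs : (Function.support fun x => star (z x) * f x).Finite := by
    refine hfin.subset ?_
    intro x hx
    simp only [Function.mem_support] at hx ⊢
    intro h0
    exact hx (by rw [h0]; simp)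
  rw [← tsum_eq_finsum (L := SummationFilter.unconditional _) hfs]
  refine tsum_congr fun x => ?_
  rw [RCLike.inner_apply, mul_comm]
  rfl

theorem l2Betti_eq : l2Betti S = b1l2 S := by
  apply le_antisymm _ (b1l2_le S)
  unfold b1l2 tau l2Betti
  refine Finset.sum_le_sum fun s _ => ?_
  apply csSup_le
  · refine ⟨0, fun _ => 0, ?_, by simp, by simp⟩
    have := isHarmonic_of_mem S 0 (harm S).zero_mem
    exact this
  · rintro r ⟨f, hf, h1, rfl⟩
    obtain ⟨F, hF, hFf⟩ := mem_of_isHarmonic S f hf
    have h2 : ‖F‖ ^ 2 ≤ 1 := by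
      rw [norm_sq_eq]
      simp only [hFf]
      exact h1
    have h3 : f (1, s) = ⟪(harm S).starProjection (dl ((1 : H), s)), F⟫_ℂ := by
      rw [Submodule.inner_starProjection_left_eq_right,
        Submodule.starProjection_eq_self_iff.2 hF, inner_dl_left, hFf]
    rw [h3]
    have h4 : ‖⟪(harm S).starProjection (dl ((1 : H), s)), F⟫_ℂ‖
        ≤ ‖(harm S).starProjection (dl ((1 : H), s))‖ * ‖F‖ := norm_inner_le_norm _ _
    calc ‖⟪(harm S).starProjection (dl ((1 : H), s)), F⟫_ℂ‖ ^ 2
        ≤ (‖(harm S).starProjection (dl ((1 : H), s))‖ * ‖F‖) ^ 2 := by gcongr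
      _ = ‖(harm S).starProjection (dl ((1 : H), s))‖ ^ 2 * ‖F‖ ^ 2 := by ring
      _ ≤ ‖(harm S).starProjection (dl ((1 : H), s))‖ ^ 2 * 1 := by gcongr
      _ = _ := mul_one _

/-- The lower bound for groups presented by powers. -/
theorem l2Betti_ge {X : Type} (g : X → S) (hsurj : Function.Surjective (ph S g))
    (hgs : Function.Surjective g) [Infinite H]
    {ι : Type} (w : ι → FreeGroup X)
    (hR : (ph S g).ker ≤ Subgroup.normalClosure
      (Set.range fun i => w i ^ orderOf (ph S g (w i))))
    (hpos : ∀ i, 0 < orderOf (ph S g (w i)))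
    (c : ℝ) (hc : ∀ s : Finset ι, ∑ i ∈ s, 1 / (orderOf (ph S g (w i)) : ℝ) ≤ c) :
    (S.card : ℝ) - 1 - c ≤ l2Betti S := by
  have hS : Subgroup.closure (S : Set H) = ⊤ := by
    rw [eq_top_iff]
    rintro h -
    obtain ⟨u, rfl⟩ := hsurj h
    induction u using FreeGroup.induction_on with
    | C1 => rw [map_one]; exact one_mem _
    | of x => rw [ph_of]; exact Subgroup.subset_closure (g x).2
    | inv_of x hx => rw [map_inv]; exact inv_mem hx
    | mul u v hu hv => rw [map_mul]; exact mul_mem hu hv
  rw [l2Betti_eq, b1l2_eq S hS, tau_finCycles_orth]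
  have := dm_finCycles_le S g hsurj hgs w hR hpos c hc
  linarith

/-- The strict upper bound: some generator has finite order. -/
theorem l2Betti_lt [Infinite H] (hS : Subgroup.closure (S : Set H) = ⊤) (s : H) (hs : s ∈ S)
    (hfin : IsOfFinOrder s) : l2Betti S < (S.card : ℝ) - 1 := by
  classical
  rw [l2Betti_eq, b1l2_eq S hS, tau_finCycles_orth]
  let zf : H × S → ℂ := fun x => if x.2 = ⟨s, hs⟩ ∧ x.1 ∈ Subgroup.zpowers s then 1 else 0
  have hzfin : (Function.support zf).Finite := by
    have h1 : (Subgroup.zpowers s : Set H).Finite := by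
      exact (finite_zpowers.2 hfin)
    refine (h1.image fun h : H => ((h, ⟨s, hs⟩) : H × S)).subset ?_
    rintro ⟨h, t⟩ hx
    simp only [Function.mem_support, zf] at hx
    have hx' : t = ⟨s, hs⟩ ∧ h ∈ Subgroup.zpowers s := by
      by_contra hc
      rw [if_neg hc] at hx
      exact hx rfl
    refine ⟨h, hx'.2, ?_⟩
    rw [hx'.1]
  have hzm : Memℓp zf 2 := by
    rw [memlp_two_iff]
    apply summable_of_hasFiniteSupport
    refine hzfin.subset ?_
    intro x hx
    simp only [Function.mem_support] at hx ⊢
    intro h0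
    exact hx (by rw [h0]; simp)
  let Z : EE H S := ⟨zf, hzm⟩
  have hZ : Z ∈ finCycles S := by
    refine ⟨?_, hzfin⟩
    intro h
    unfold bdry
    change ∑ t : S, (zf (h * (t : H)⁻¹, t) - zf (h, t)) = 0
    apply Finset.sum_eq_zero
    intro t _
    by_cases ht : t = ⟨s, hs⟩
    · subst ht
      simp only [zf, true_and]
      have : h * s⁻¹ ∈ Subgroup.zpowers s ↔ h ∈ Subgroup.zpowers s := by
        constructor
        · intro h1
          have := mul_mem h1 (Subgroup.mem_zpowers s)
          rwa [inv_mul_cancel_right] at this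
        · intro h1
          exact mul_mem h1 (inv_mem (Subgroup.mem_zpowers s))
      simp only [this, sub_self]
    · simp only [zf, ht, false_and, if_false, sub_self]
  have hZ0 : Z ≠ 0 := by
    intro h0
    have h1 : Z (1, ⟨s, hs⟩) = 0 := by rw [h0]; rfl
    have h2 : Z (1, ⟨s, hs⟩) = 1 := by
      exact if_pos ⟨rfl, one_mem _⟩
    rw [h2] at h1
    exact one_ne_zero h1
  have := dm_pos (finCycles S) (finCycles_inv S) Z hZ hZ0
  linarith

end

end Pool.Agent.TH714.L2
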