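import Pool.Agent.TH714.L2.Dim

set_option autoImplicit false
set_option linter.unusedSectionVars false

open scoped InnerProductSpace InnerProduct ENNReal
open Filter Topology

/-!
Finite cycles of the Cayley graph of a group with the presentation `⟨X | wᵢ ^ nᵢ⟩`.
-/

namespace Pool.Agent.TH714.L2

open Pool.Agent.H919R3.L2

section
variable {H I J : Type} [Group H]

/-- The vectors of finite support. -/
noncomputable def FS (J : Type) : Submodule ℂ (EE H J) :=
  Submodule.span ℂ (Set.range fun x : H × J => dl x)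

theorem tr_mem_FS (k : H) (f : EE H J) (hf : f ∈ FS (H := H) J) : tr k f ∈ FS (H := H) J := by
  unfold FS at hf ⊢
  induction hf using Submodule.span_induction with
  | mem x hx =>
    obtain ⟨⟨h, j⟩, rfl⟩ := hx
    rw [tr_dl]
    exact Submodule.subset_span ⟨_, rfl⟩
  | zero =>
    have : tr k (0 : EE H J) = 0 := by ext x; rfl
    rw [this]; exact Submodule.zero_mem _
  | add x y _ _ hx hy => rw [tr_add]; exact Submodule.add_mem _ hx hy
  | smul a x _ hx => rw [tr_smul]; exact Submodule.smul_mem _ _ hx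

/-- Right multiplication operators. -/
theorem exists_rmul' (k : H) (j : J) [Fintype J] [DecidableEq J] :
    ∃ T : EE H Unit →L[ℂ] EE H J, Eqv T ∧
    (∀ f h (i : J), T f (h, i) = if i = j then f (h * k⁻¹, ()) else 0) ∧
    ∀ h : H, T (dl (h, ())) = dl (h * k, j) := by
  classical
  obtain ⟨T, hT⟩ := exists_op (X := H × Unit) (Y := H × J)
    { toFun := fun f y => if y.2 = j then f (y.1 * k⁻¹, ()) else 0
      map_add' := by
        intro f g; ext y; simp only [Pi.add_apply]; split_ifs <;> simp
      map_smul' := by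
        intro c f; ext y; simp only [Pi.smul_apply, smul_eq_mul, RingHom.id_apply]
        split_ifs <;> simp }
    (by
      intro y
      change Continuous fun f : H × Unit → ℂ => if y.2 = j then f (y.1 * k⁻¹, ()) else 0
      by_cases hy : y.2 = j
      · simp only [hy, if_true]; exact continuous_apply _
      · simp only [hy, if_false]; exact continuous_const)
    (by
      intro f
      apply memlp_prod
      intro j'
      change Memℓp (fun x : H => if j' = j then f (x * k⁻¹, ()) else 0) 2
      by_cases hy : j' = j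
      · simp only [hy, if_true]
        exact memlp_comp_inj (fun h : H => (h * k⁻¹, ())) (by intro a b hab; simpa using hab)
          _ f.2
      · simp only [hy, if_false]; exact zero_memℓp)
  have hT' : ∀ f h (i : J), T f (h, i) = if i = j then f (h * k⁻¹, ()) else 0 :=
    fun f h i => hT f (h, i)
  refine ⟨T, ?_, hT', ?_⟩
  · intro l f
    ext ⟨h, i⟩
    rw [tr_apply, hT', hT', tr_apply, mul_assoc]
  · intro h
    ext ⟨x, i⟩
    rw [hT']
    by_cases hi : i = j
    · rw [if_pos hi, hi]
      by_cases hx : x = h * k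
      · rw [hx, mul_inv_cancel_right, dl_apply_self, dl_apply_self]
      · rw [dl_apply_ne, dl_apply_ne]
        · intro hh; exact hx (Prod.ext_iff.1 hh).1
        · intro hh
          apply hx
          have := (Prod.ext_iff.1 hh).1
          simp only at this
          rw [← this]; simp
    · rw [if_neg hi, dl_apply_ne]
      intro hh; exact hi (Prod.ext_iff.1 hh).2

theorem exists_rmul (k : H) (j : J) [Fintype J] : ∃ T : EE H Unit →L[ℂ] EE H J, Eqv T ∧
    ∀ h : H, T (dl (h, ())) = dl (h * k, j) := by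
  classical
  obtain ⟨T, h1, -, h2⟩ := exists_rmul' (H := H) k j
  exact ⟨T, h1, h2⟩

/-- A finitely supported vector gives an equivariant operator. -/
theorem exists_opv [Fintype J] (v : EE H J) (hv : v ∈ FS (H := H) J) :
    ∃ T : EE H Unit →L[ℂ] EE H J, Eqv T ∧ ∀ h : H, T (dl (h, ())) = tr h v := by
  unfold FS at hv
  induction hv using Submodule.span_induction with
  | mem x hx =>
    obtain ⟨⟨k, j⟩, rfl⟩ := hx
    obtain ⟨T, hT, h⟩ := exists_rmul (H := H) k j
    exact ⟨T, hT, fun l => by rw [h, tr_dl]⟩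
  | zero =>
    refine ⟨0, ?_, ?_⟩
    · intro k f; ext x; rfl
    · intro k; ext x; rfl
  | add x y _ _ hx hy =>
    obtain ⟨T, hT, h⟩ := hx
    obtain ⟨T', hT', h'⟩ := hy
    refine ⟨T + T', ?_, ?_⟩
    · intro k f
      change T (tr k f) + T' (tr k f) = tr k (T f + T' f)
      rw [tr_add, hT, hT']
    · intro k
      change T _ + T' _ = _
      rw [tr_add, h, h']
  | smul a x _ hx =>
    obtain ⟨T, hT, h⟩ := hx
    refine ⟨a • T, ?_, ?_⟩
    · intro k f
      change a • T (tr k f) = tr k (a • T f)
      rw [tr_smul, hT]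
    · intro k
      change a • T _ = _
      rw [tr_smul, h]

/-- Functions constant on the cosets of `⟨x⟩`. -/
noncomputable def QX (x : H) : Submodule ℂ (EE H Unit) where
  carrier := {f | ∀ h : H, f (h * x, ()) = f (h, ())}
  add_mem' := by
    intro f g hf hg h
    simp only [lp.coeFn_add, Pi.add_apply]
    rw [hf h, hg h]
  zero_mem' := by intro h; rfl
  smul_mem' := by
    intro c f hf h
    simp only [lp.coeFn_smul, Pi.smul_apply, smul_eq_mul]
    rw [hf h]

theorem continuous_eval {X : Type} (x : X) :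
    Continuous fun f : lp (fun _ : X => ℂ) 2 => f x := by
  rw [continuous_iff_seqContinuous]
  intro u f hu
  exact apply_tendsto u f hu x

theorem isClosed_QX (x : H) : IsClosed (QX x : Set (EE H Unit)) := by
  have : (QX x : Set (EE H Unit)) = ⋂ h : H, {f : EE H Unit | f (h * x, ()) = f (h, ())} := by
    ext f
    simp only [Set.mem_iInter]
    exact Iff.rfl
  rw [this]
  exact isClosed_iInter fun h => isClosed_eq (continuous_eval _) (continuous_eval _)

theorem QX_pow (x : H) (f : EE H Unit) (hf : f ∈ QX x) (k : ℕ) (h : H) :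
    f (h * x ^ k, ()) = f (h, ()) := by
  induction k with
  | zero => rw [pow_zero, mul_one]
  | succ k ih => rw [pow_succ, ← mul_assoc]; exact (hf _).trans ih

instance QX_complete (x : H) : CompleteSpace (QX x) := (isClosed_QX x).completeSpace_coe

theorem tau_QX (x : H) (hx : 0 < orderOf x) : tau (QX x) = 1 / (orderOf x : ℝ) := by
  classical
  set n := orderOf x with hn
  have hn0 : (n : ℂ) ≠ 0 := by exact_mod_cast hx.ne'
  set q : EE H Unit := ((n : ℂ)⁻¹) • ∑ k ∈ Finset.range n, dl (x ^ k, ()) with hq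
  have hxn : x ^ n = 1 := pow_orderOf_eq_one x
  have hval : ∀ h : H, q (h, ()) = (n : ℂ)⁻¹ * ∑ k ∈ Finset.range n,
      (dl (x ^ k, ()) : EE H Unit) (h, ()) := by
    intro h
    simp only [hq, lp.coeFn_smul, Pi.smul_apply, smul_eq_mul, lp.coeFn_sum, Finset.sum_apply]
  have hqQ : q ∈ QX x := by
    intro h
    rw [hval, hval]
    congr 1
    have e : ∀ k, (dl (x ^ (k + 1), ()) : EE H Unit) (h * x, ())
        = (dl (x ^ k, ()) : EE H Unit) (h, ()) := by
      intro k
      by_cases hh : h = x ^ k
      · rw [hh, ← pow_succ, dl_apply_self, dl_apply_self]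
      · rw [dl_apply_ne, dl_apply_ne]
        · intro h1; exact hh (Prod.ext_iff.1 h1).1
        · intro h1
          have := (Prod.ext_iff.1 h1).1
          simp only [pow_succ] at this
          exact hh (mul_right_cancel this)
    have e2 := Finset.sum_range_succ' (fun k => (dl (x ^ k, ()) : EE H Unit) (h * x, ())) n
    have e3 := Finset.sum_range_succ (fun k => (dl (x ^ k, ()) : EE H Unit) (h * x, ())) n
    rw [e3] at e2
    have e4 : (dl (x ^ n, ()) : EE H Unit) (h * x, ()) = (dl (x ^ 0, ()) : EE H Unit) (h * x, ()) := by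
      rw [hxn, pow_zero]
    rw [e4] at e2
    have e5 := add_right_cancel e2
    rw [e5]
    exact Finset.sum_congr rfl fun k _ => e k
  have hproj : (QX x).starProjection (dl ((1 : H), ())) = q := by
    apply Submodule.eq_starProjection_of_mem_of_inner_eq_zero hqQ
    intro w hw
    rw [inner_sub_left, inner_dl_left, hq, inner_smul_left, sum_inner]
    have : ∀ k ∈ Finset.range n, ⟪(dl (x ^ k, ()) : EE H Unit), w⟫_ℂ = w ((1 : H), ()) := by
      intro k _
      rw [inner_dl_left]
      have := QX_pow x w hw k 1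
      rw [one_mul] at this
      exact this
    rw [Finset.sum_congr rfl this, Finset.sum_const, Finset.card_range, nsmul_eq_mul, map_inv₀,
      Complex.conj_natCast, ← mul_assoc, inv_mul_cancel₀ hn0, one_mul, sub_self]
  have hq1 : q ((1 : H), ()) = (n : ℂ)⁻¹ := by
    rw [hval]
    rw [Finset.sum_eq_single 0]
    · rw [pow_zero, dl_apply_self, mul_one]
    · intro k hk hk0
      rw [dl_apply_ne]
      intro h1
      have h2 := (Prod.ext_iff.1 h1).1
      simp only at h2
      have h3 := orderOf_dvd_of_pow_eq_one h2.symm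
      have h4 := Nat.le_of_dvd (Nat.pos_of_ne_zero hk0) h3
      rw [Finset.mem_range] at hk
      omega
    · intro h1
      rw [Finset.mem_range] at h1
      omega
  unfold tau
  rw [Fintype.sum_unique]
  change ‖(QX x).starProjection (dl ((1 : H), ()))‖ ^ 2 = _
  have hns := norm_sq_star (QX x) (dl ((1 : H), ()))
  rw [hns, hproj, inner_dl_left, hq1]
  rw [show ((n : ℂ)⁻¹) = (((n : ℝ)⁻¹ : ℝ) : ℂ) by push_cast; rfl, Complex.ofReal_re]
  rw [one_div]

/-- The dimension of the image of an operator which is constant along the powers of `x`. -/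
theorem dm_range_le_inv [Fintype J] (T : EE H Unit →L[ℂ] EE H J) (hT : Eqv T) (x : H)
    (hx : 0 < orderOf x) (h : ∀ h : H, T (dl (h * x, ())) = T (dl (h, ()))) :
    dm (LinearMap.range (T : EE H Unit →ₗ[ℂ] EE H J)) ≤ 1 / (orderOf x : ℝ) := by
  rw [← tau_QX x hx]
  apply dm_range_le T hT
  intro z hz
  apply ext_inner_right ℂ
  intro y
  rw [inner_zero_left, ← ContinuousLinearMap.adjoint_inner_right]
  refine Submodule.inner_left_of_mem_orthogonal ?_ hz
  intro k
  rw [← inner_dl_left, ← inner_dl_left, ContinuousLinearMap.adjoint_inner_right,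
    ContinuousLinearMap.adjoint_inner_right, h]

end

section
variable {H X : Type} [Group H] (S : Finset H) (g : X → S)

/-- The affine map `f ↦ s f + δ₍₁,ₛ₎`. -/
noncomputable def aff (s : S) : Equiv.Perm (EE H S) where
  toFun f := tr (s : H) f + dl (1, s)
  invFun f := tr (s : H)⁻¹ (f - dl (1, s))
  left_inv f := by
    change tr (s : H)⁻¹ (tr (s : H) f + dl (1, s) - dl (1, s)) = f
    rw [add_sub_cancel_right, tr_tr, inv_mul_cancel, tr_one]
  right_inv f := by
    change tr (s : H) (tr (s : H)⁻¹ (f - dl (1, s))) + dl (1, s) = f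
    rw [tr_tr, mul_inv_cancel, tr_one, sub_add_cancel]

/-- The chain of the path of a word, starting at `1`. -/
noncomputable def DD (w : FreeGroup X) : EE H S := FreeGroup.lift (fun x => aff S (g x)) w 0

/-- The homomorphism to `H`. -/
noncomputable def ph : FreeGroup X →* H := FreeGroup.lift fun x => ((g x : S) : H)

theorem ph_of (x : X) : ph S g (FreeGroup.of x) = g x := by
  unfold ph; rw [FreeGroup.lift_apply_of]

theorem aff_apply (w : FreeGroup X) (f : EE H S) :
    FreeGroup.lift (fun x => aff S (g x)) w f = tr (ph S g w) f + DD S g w := by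
  unfold DD
  induction w using FreeGroup.induction_on generalizing f with
  | C1 =>
    rw [map_one, map_one, tr_one]
    simp
  | of x =>
    rw [FreeGroup.lift_apply_of, ph_of]
    change tr ((g x : S) : H) f + dl (1, g x) = tr ((g x : S) : H) f + (tr ((g x : S) : H) 0 + dl (1, g x))
    have : tr ((g x : S) : H) (0 : EE H S) = 0 := by ext x; rfl
    rw [this, zero_add]
  | inv_of x _ =>
    rw [map_inv, map_inv, FreeGroup.lift_apply_of, ph_of]
    change tr ((g x : S) : H)⁻¹ (f - dl (1, g x)) = tr ((g x : S) : H)⁻¹ f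
      + tr ((g x : S) : H)⁻¹ (0 - dl (1, g x))
    rw [← tr_add]
    congr 1
    abel
  | mul u v hu hv =>
    rw [map_mul, map_mul, Equiv.Perm.mul_apply, Equiv.Perm.mul_apply, hv f, hu, hu
      ((FreeGroup.lift (fun x => aff S (g x)) v) 0), tr_add, tr_tr]
    rw [add_assoc]

theorem DD_of (x : X) : DD S g (FreeGroup.of x) = dl (1, g x) := by
  unfold DD
  rw [FreeGroup.lift_apply_of]
  change tr ((g x : S) : H) 0 + dl (1, g x) = _
  have : tr ((g x : S) : H) (0 : EE H S) = 0 := by ext x; rfl
  rw [this, zero_add]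

theorem DD_one : DD S g 1 = 0 := by
  unfold DD; rw [map_one]; rfl

theorem DD_mul (u v : FreeGroup X) : DD S g (u * v) = DD S g u + tr (ph S g u) (DD S g v) := by
  conv_lhs => unfold DD
  rw [map_mul, Equiv.Perm.mul_apply, aff_apply]
  rw [add_comm]
  rfl

theorem DD_inv (u : FreeGroup X) : DD S g u⁻¹ = - tr (ph S g u)⁻¹ (DD S g u) := by
  have h := DD_mul S g u⁻¹ u
  rw [inv_mul_cancel, DD_one, map_inv] at h
  exact eq_neg_of_add_eq_zero_left h.symm

theorem DD_mem_FS (w : FreeGroup X) : DD S g w ∈ FS (H := H) S := by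
  induction w using FreeGroup.induction_on with
  | C1 => rw [DD_one]; exact Submodule.zero_mem _
  | of x => rw [DD_of]; exact Submodule.subset_span ⟨_, rfl⟩
  | inv_of x hx =>
    rw [DD_inv]
    exact Submodule.neg_mem _ (tr_mem_FS _ _ hx)
  | mul u v hu hv =>
    rw [DD_mul]
    exact Submodule.add_mem _ hu (tr_mem_FS _ _ hv)

theorem DD_pow (w : FreeGroup X) (n : ℕ) (hn : ph S g w ^ n = 1) :
    tr (ph S g w) (DD S g (w ^ n)) = DD S g (w ^ n) := by
  have h1 := DD_mul S g w (w ^ n)
  have h2 := DD_mul S g (w ^ n) w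
  rw [← pow_succ', pow_succ, h2, map_pow, hn, tr_one] at h1
  rw [add_comm (DD S g w)] at h1
  exact (add_right_cancel h1).symm

/-- The words killed by `ph` whose chains are orthogonal to `f` after all translations. -/
noncomputable def NF (f : EE H S) : Subgroup (FreeGroup X) where
  carrier := {w | ph S g w = 1 ∧ ∀ h : H, ⟪tr h (DD S g w), f⟫_ℂ = 0}
  mul_mem' := by
    rintro u v ⟨hu, hu'⟩ ⟨hv, hv'⟩
    refine ⟨by rw [map_mul, hu, hv, one_mul], fun h => ?_⟩
    rw [DD_mul, tr_add, inner_add_left, tr_tr, hu', hv', add_zero]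
  one_mem' := by
    refine ⟨map_one _, fun h => ?_⟩
    rw [DD_one]
    have : tr h (0 : EE H S) = 0 := by ext x; rfl
    rw [this, inner_zero_left]
  inv_mem' := by
    rintro u ⟨hu, hu'⟩
    refine ⟨by rw [map_inv, hu, inv_one], fun h => ?_⟩
    rw [DD_inv, hu, inv_one, tr_one]
    have : tr h (-DD S g u) = -tr h (DD S g u) := by ext x; rfl
    rw [this, inner_neg_left, hu', neg_zero]

instance NF_normal (f : EE H S) : (NF S g f).Normal := by
  refine ⟨?_⟩
  rintro u ⟨hu, hu'⟩ v
  refine ⟨by rw [map_mul, map_mul, hu, mul_one, map_inv, mul_inv_cancel], fun h => ?_⟩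
  rw [DD_mul, DD_mul, DD_inv, map_mul, hu, mul_one]
  have : tr (ph S g v) (-tr (ph S g v)⁻¹ (DD S g v)) = - DD S g v := by
    have e : ∀ z : EE H S, tr (ph S g v) (-z) = -tr (ph S g v) z := by intro z; ext x; rfl
    rw [e, tr_tr, mul_inv_cancel, tr_one]
  rw [this, add_neg_cancel_comm, tr_tr]
  exact hu' _

/-- Orthogonality to the relator cycles implies the existence of a potential. -/
theorem exists_pot (hsurj : Function.Surjective (ph S g)) (hgs : Function.Surjective g)
    (R : Set (FreeGroup X)) (hR : (ph S g).ker ≤ Subgroup.normalClosure R) (f : EE H S)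
    (hker : ∀ r ∈ R, ph S g r = 1)
    (hf : ∀ r ∈ R, ∀ h : H, ⟪tr h (DD S g r), f⟫_ℂ = 0) :
    ∃ F : H → ℂ, ∀ (h : H) (s : S), f (h, s) = F (h * s) - F h := by
  have h1 : (ph S g).ker ≤ NF S g f :=
    hR.trans (Subgroup.normalClosure_le_normal fun r hr => ⟨hker r hr, hf r hr⟩)
  let F : H → ℂ := fun h => ⟪DD S g (hsurj h).choose, f⟫_ℂ
  have hF : ∀ w, F (ph S g w) = ⟪DD S g w, f⟫_ℂ := by
    intro w
    set w' := (hsurj (ph S g w)).choose with hw'
    have h2 : ph S g w' = ph S g w := (hsurj (ph S g w)).choose_spec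
    have h3 : w'⁻¹ * w ∈ NF S g f := h1 (by
      rw [MonoidHom.mem_ker, map_mul, map_inv, h2, inv_mul_cancel])
    have h4 := DD_mul S g w' (w'⁻¹ * w)
    rw [mul_inv_cancel_left] at h4
    change ⟪DD S g w', f⟫_ℂ = _
    rw [h4, inner_add_left, h3.2, add_zero]
  refine ⟨F, ?_⟩
  intro h s
  obtain ⟨w, rfl⟩ := hsurj h
  obtain ⟨x, rfl⟩ := hgs s
  have h5 := DD_mul S g w (FreeGroup.of x)
  have h6 : ph S g w * ((g x : S) : H) = ph S g (w * FreeGroup.of x) := by
    rw [map_mul, ph_of]
  rw [h6, hF, hF, h5, inner_add_left, DD_of, tr_dl, mul_one, inner_dl_left]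
  ring

/-- Orthogonality to the relator cycles implies orthogonality to all finite cycles. -/
theorem mem_orth_of_relators (hsurj : Function.Surjective (ph S g)) (hgs : Function.Surjective g)
    (R : Set (FreeGroup X)) (hR : (ph S g).ker ≤ Subgroup.normalClosure R) (f : EE H S)
    (hker : ∀ r ∈ R, ph S g r = 1)
    (hf : ∀ r ∈ R, ∀ h : H, ⟪tr h (DD S g r), f⟫_ℂ = 0) : f ∈ (finCycles S)ᗮ := by
  obtain ⟨F, hF⟩ := exists_pot S g hsurj hgs R hR f hker hf
  exact grad_orth S F f hF

/-- The upper bound for the dimension of the space of finite cycles. -/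
theorem dm_finCycles_le (hsurj : Function.Surjective (ph S g)) (hgs : Function.Surjective g)
    {ι : Type} (w : ι → FreeGroup X)
    (hR : (ph S g).ker ≤ Subgroup.normalClosure
      (Set.range fun i => w i ^ orderOf (ph S g (w i))))
    (hpos : ∀ i, 0 < orderOf (ph S g (w i)))
    (c : ℝ) (hc : ∀ s : Finset ι, ∑ i ∈ s, 1 / (orderOf (ph S g (w i)) : ℝ) ≤ c) :
    dm (finCycles S) ≤ c := by
  choose T hT hTd using fun i => exists_opv (H := H) (J := S)
    (DD S g (w i ^ orderOf (ph S g (w i)))) (DD_mem_FS S g _)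
  let P : ι → Submodule ℂ (EE H S) := fun i => LinearMap.range (T i : EE H Unit →ₗ[ℂ] EE H S)
  have hP : ∀ i, Inv (P i) := by
    rintro i k _ ⟨v, rfl⟩
    exact ⟨tr k v, hT i k v⟩
  have hdim : ∀ i, dm (P i) ≤ 1 / (orderOf (ph S g (w i)) : ℝ) := by
    intro i
    apply dm_range_le_inv (T i) (hT i) _ (hpos i)
    intro h
    rw [hTd, hTd, ← tr_tr, DD_pow S g (w i) _ (pow_orderOf_eq_one _)]
  have hle : finCycles S ≤ (⨆ i, P i).topologicalClosure := by
    have h1 : (⨆ i, P i)ᗮ ≤ (finCycles S)ᗮ := by
      intro f hf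
      apply mem_orth_of_relators S g hsurj hgs _ hR f
      · rintro _ ⟨i, rfl⟩
        simp only [map_pow, pow_orderOf_eq_one]
      · rintro _ ⟨i, rfl⟩ h
        rw [← hTd]
        apply Submodule.inner_right_of_mem_orthogonal _ hf
        exact Submodule.mem_iSup_of_mem i ⟨_, rfl⟩
    rw [← Submodule.orthogonal_orthogonal_eq_closure]
    exact (Submodule.le_orthogonal_orthogonal _).trans (Submodule.orthogonal_le h1)
  calc dm (finCycles S) ≤ dm (⨆ i, P i).topologicalClosure := dm_mono hle
    _ = dm (⨆ i, P i) := dm_closure _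
    _ ≤ c := dm_iSup_le P hP c fun s => (Finset.sum_le_sum fun i _ => hdim i).trans (hc s)

end

end Pool.Agent.TH714.L2
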