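import Pool.Agent.H919R3.L2.Compare

set_option autoImplicit false
set_option linter.unusedSectionVars false

open scoped InnerProductSpace InnerProduct ENNReal
open Filter Topology

/-!
More about the von Neumann dimension `tau` of `Pool.Agent.H919R3.L2`: images of equivariant
operators with a large kernel, countable subadditivity, complements.
-/

namespace Pool.Agent.TH714.L2

open Pool.Agent.H919R3.L2

section
variable {H I J : Type} [Group H]

/-- The dimension of the closure of a submodule. -/
noncomputable def dm [Fintype J] (P : Submodule ℂ (EE H J)) : ℝ := tau P.topologicalClosure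

theorem tau_congr [Fintype J] {P Q : Submodule ℂ (EE H J)} [P.HasOrthogonalProjection]
    [Q.HasOrthogonalProjection] (h : P = Q) : tau P = tau Q := by
  subst h
  rfl

theorem dm_eq_tau [Fintype J] (P : Submodule ℂ (EE H J)) [P.HasOrthogonalProjection]
    (hP : IsClosed (P : Set (EE H J))) : dm P = tau P :=
  tau_congr hP.submodule_topologicalClosure_eq

theorem dm_mono [Fintype J] {P Q : Submodule ℂ (EE H J)} (h : P ≤ Q) : dm P ≤ dm Q :=
  tau_mono _ _ (Submodule.topologicalClosure_mono h)

theorem dm_nonneg [Fintype J] (P : Submodule ℂ (EE H J)) : 0 ≤ dm P := by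
  unfold dm tau
  positivity

/-- The closure has the same dimension. -/
theorem dm_closure [Fintype J] (P : Submodule ℂ (EE H J)) : dm P.topologicalClosure = dm P := by
  unfold dm
  exact tau_congr (Submodule.isClosed_topologicalClosure P).submodule_topologicalClosure_eq

/-- The key estimate: an equivariant operator which vanishes on `Qᗮ` has an image of dimension at
most that of `Q`. -/
theorem dm_range_le [Fintype I] [Fintype J] (T : EE H I →L[ℂ] EE H J) (hT : Eqv T)
    (Q : Submodule ℂ (EE H I)) [Q.HasOrthogonalProjection] (hQ : ∀ x ∈ Qᗮ, T x = 0) :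
    dm (LinearMap.range (T : EE H I →ₗ[ℂ] EE H J)) ≤ tau Q := by
  unfold dm
  set P := (LinearMap.range (T : EE H I →ₗ[ℂ] EE H J)).topologicalClosure with hP
  apply le_of_forall_pos_le_add
  intro δ hδ
  obtain ⟨ε, R, hε, hR, h1, -⟩ := exists_good T P hP (δ / (Fintype.card J + 1)) (by positivity)
  have hs := congrArg Complex.re (sum_reg T hT ε R hR)
  rw [Complex.re_sum, Complex.re_sum] at hs
  have e1 : tau P ≤ ∑ j : J, ((⟪(dl (1, j) : EE H J),
      T (R (ContinuousLinearMap.adjoint T (dl (1, j))))⟫_ℂ).re + δ / (Fintype.card J + 1)) := by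
    unfold tau
    refine Finset.sum_le_sum fun j _ => ?_
    have := (abs_le.1 (h1 j)).1
    linarith
  rw [Finset.sum_add_distrib, hs] at e1
  have key : ∀ x : EE H I, ‖x‖ ^ 2 - ‖Q.starProjection x‖ ^ 2 ≤ ε * (⟪x, R x⟫_ℂ).re := by
    intro x
    set q := Q.starProjection x with hq
    set k := Qᗮ.starProjection x with hk
    have hx : x = q + k := (Submodule.starProjection_add_starProjection_orthogonal (K := Q) x).symm
    have hkm : k ∈ Qᗮ := Submodule.starProjection_apply_mem _ _
    have hqm : q ∈ Q := Submodule.starProjection_apply_mem _ _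
    have hTk : T k = 0 := hQ k hkm
    have hRk : (ε : ℂ) • R k = k := by
      have h := hR.2 k
      rw [hTk, map_zero, zero_add, map_smul] at h
      exact h
    have hqk : ⟪q, k⟫_ℂ = 0 := Submodule.inner_right_of_mem_orthogonal hqm hkm
    have hkq : ⟪k, q⟫_ℂ = 0 := Submodule.inner_left_of_mem_orthogonal hqm hkm
    have hkRq : (ε : ℂ) * ⟪k, R q⟫_ℂ = 0 := by
      have h := congrArg (fun z => ⟪k, z⟫_ℂ) (hR.1 q)
      simp only [inner_add_right, inner_smul_right] at h
      rw [ContinuousLinearMap.adjoint_inner_right, hTk, inner_zero_left, zero_add, hkq] at h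
      exact h
    have hqRk : (ε : ℂ) * ⟪q, R k⟫_ℂ = 0 := by
      rw [← inner_smul_right, hRk, hqk]
    have hkRk : (ε : ℂ) * ⟪k, R k⟫_ℂ = ((‖k‖ ^ 2 : ℝ) : ℂ) := by
      rw [← inner_smul_right, hRk, inner_self_eq_norm_sq_to_K]
      norm_cast
    have hsum : (ε : ℂ) * ⟪x, R x⟫_ℂ = (ε : ℂ) * ⟪q, R q⟫_ℂ + ((‖k‖ ^ 2 : ℝ) : ℂ) := by
      rw [hx, map_add, inner_add_left, inner_add_right, inner_add_right]
      linear_combination hkRq + hqRk + hkRk
    have hre := congrArg Complex.re hsum
    rw [Complex.re_ofReal_mul, Complex.add_re, Complex.re_ofReal_mul, Complex.ofReal_re] at hre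
    rw [hre]
    have hpos := hR.re_inner_self_nonneg hε q
    have hnorm := Submodule.norm_sq_eq_add_norm_sq_starProjection x Q
    rw [← hq, ← hk] at hnorm
    nlinarith
  have e2 : ∑ i : I, (1 - (ε : ℂ) * ⟪(dl (1, i) : EE H I), R (dl (1, i))⟫_ℂ).re
      ≤ tau Q := by
    unfold tau
    refine Finset.sum_le_sum fun i _ => ?_
    have h := key (dl (1, i))
    rw [norm_dl, one_pow] at h
    rw [Complex.sub_re, Complex.one_re, Complex.re_ofReal_mul]
    linarith
  have e3 : ∑ _j : J, δ / ((Fintype.card J : ℝ) + 1) ≤ δ := by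
    rw [Finset.sum_const, nsmul_eq_mul, Finset.card_univ]
    have : (0 : ℝ) < (Fintype.card J : ℝ) + 1 := by positivity
    rw [mul_div_assoc', div_le_iff₀ this]
    nlinarith
  linarith

/-- A submodule stable under the left translations. -/
def Inv (P : Submodule ℂ (EE H J)) : Prop := ∀ (k : H) (f : EE H J), f ∈ P → tr k f ∈ P

theorem norm_tr (k : H) (f : EE H J) : ‖tr k f‖ = ‖f‖ := by
  have h := inner_tr k f f
  rw [inner_self_eq_norm_sq_to_K, inner_self_eq_norm_sq_to_K] at h
  have h2 : ‖tr k f‖ ^ 2 = ‖f‖ ^ 2 := by exact_mod_cast h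
  exact (sq_eq_sq₀ (norm_nonneg _) (norm_nonneg _)).1 h2

theorem tr_sub (k : H) (f g : EE H J) : tr k (f - g) = tr k f - tr k g := by
  ext x; rfl

theorem continuous_tr (k : H) : Continuous (tr k : EE H J → EE H J) := by
  have : Isometry (tr k : EE H J → EE H J) := by
    refine Isometry.of_dist_eq fun f g => ?_
    rw [dist_eq_norm, dist_eq_norm, ← tr_sub, norm_tr]
  exact this.continuous

theorem Inv.closure {P : Submodule ℂ (EE H J)} (hP : Inv P) : Inv P.topologicalClosure := by
  intro k f hf
  have h1 : f ∈ _root_.closure (P : Set (EE H J)) := hf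
  have h2 := map_mem_closure (continuous_tr k) h1 (fun x hx => hP k x hx)
  exact h2

theorem Inv.orth {P : Submodule ℂ (EE H J)} (hP : Inv P) : Inv Pᗮ := by
  intro k f hf
  rw [Submodule.mem_orthogonal] at hf ⊢
  intro u hu
  have h1 := hf (tr k⁻¹ u) (hP _ _ hu)
  rw [inner_tr_left, inv_inv] at h1
  exact h1

theorem Inv.sup {P Q : Submodule ℂ (EE H J)} (hP : Inv P) (hQ : Inv Q) : Inv (P ⊔ Q) := by
  intro k f hf
  obtain ⟨p, hp, q, hq, rfl⟩ := Submodule.mem_sup.1 hf
  rw [tr_add]
  exact Submodule.add_mem_sup (hP _ _ hp) (hQ _ _ hq)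

theorem Inv.proj {P : Submodule ℂ (EE H J)} [P.HasOrthogonalProjection] (hP : Inv P) :
    Eqv P.starProjection := by
  intro k f
  apply Submodule.eq_starProjection_of_mem_of_inner_eq_zero
  · exact hP _ _ (Submodule.starProjection_apply_mem _ _)
  · intro w hw
    rw [← tr_sub, inner_tr_left]
    exact Submodule.starProjection_inner_eq_zero f _ (hP _ _ hw)

/-- Subadditivity of the dimension. -/
theorem dm_sup_le [Fintype J] {P Q : Submodule ℂ (EE H J)} (hP : Inv P) (hQ : Inv Q) :
    dm (P ⊔ Q) ≤ dm P + dm Q := by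
  set P' := P.topologicalClosure with hP'
  set Q' := Q.topologicalClosure with hQ'
  set W := (P ⊔ Q).topologicalClosure with hW
  have hPW : P' ≤ W := Submodule.topologicalClosure_mono le_sup_left
  have hQW : Q' ≤ W := Submodule.topologicalClosure_mono le_sup_right
  have hWcl : IsClosed (W : Set (EE H J)) := Submodule.isClosed_topologicalClosure _
  have hVcl : IsClosed ((W ⊓ P'ᗮ : Submodule ℂ (EE H J)) : Set (EE H J)) := by
    rw [Submodule.coe_inf]
    exact hWcl.inter (Submodule.isClosed_orthogonal _)
  have c : CompleteSpace (W ⊓ P'ᗮ : Submodule ℂ (EE H J)) := hVcl.completeSpace_coe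
  have hsub := tau_sub P' W (W ⊓ P'ᗮ) hPW rfl
  -- the operator `(1 - P) Q`
  let T : EE H J →L[ℂ] EE H J := (P'ᗮ.starProjection).comp Q'.starProjection
  have hT : Eqv T := by
    intro k f
    change P'ᗮ.starProjection (Q'.starProjection (tr k f)) = _
    rw [hQ.closure.proj, hP.closure.orth.proj]
    rfl
  have hle := dm_range_le T hT Q' (by
    intro x hx
    change P'ᗮ.starProjection (Q'.starProjection x) = 0
    rw [(Submodule.starProjection_apply_eq_zero_iff _).2 hx, map_zero])
  have hVle : (W ⊓ P'ᗮ : Submodule ℂ (EE H J))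
      ≤ (LinearMap.range (T : EE H J →ₗ[ℂ] EE H J)).topologicalClosure := by
    rintro v ⟨hvW, hvP⟩
    have h1 : P'ᗮ.starProjection v = v := Submodule.starProjection_eq_self_iff.2 hvP
    rw [← h1]
    have h2 : v ∈ _root_.closure ((P ⊔ Q : Submodule ℂ (EE H J)) : Set (EE H J)) := hvW
    have h3 : ∀ x ∈ ((P ⊔ Q : Submodule ℂ (EE H J)) : Set (EE H J)), P'ᗮ.starProjection x
        ∈ ((LinearMap.range (T : EE H J →ₗ[ℂ] EE H J)) : Set (EE H J)) := by
      intro x hx
      obtain ⟨p, hp, q, hq, rfl⟩ := Submodule.mem_sup.1 hx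
      have hp0 : P'ᗮ.starProjection p = 0 := by
        rw [Submodule.starProjection_apply_eq_zero_iff]
        exact Submodule.le_orthogonal_orthogonal _ (Submodule.le_topologicalClosure _ hp)
      refine ⟨q, ?_⟩
      change P'ᗮ.starProjection (Q'.starProjection q) = _
      rw [Submodule.starProjection_eq_self_iff.2 (Submodule.le_topologicalClosure _ hq), map_add,
        hp0, zero_add]
    exact map_mem_closure P'ᗮ.starProjection.continuous h2 h3
  have hmono := tau_mono _ _ hVle
  have : dm (P ⊔ Q) = tau P' + tau (W ⊓ P'ᗮ : Submodule ℂ (EE H J)) := by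
    rw [hsub]
    change tau W = _
    ring
  rw [this]
  unfold dm at hle ⊢
  linarith

theorem dm_bot [Fintype J] : dm (⊥ : Submodule ℂ (EE H J)) = 0 := by
  rw [dm_eq_tau _ isClosed_singleton]
  unfold tau
  simp

theorem inv_bot : Inv (⊥ : Submodule ℂ (EE H J)) := by
  intro k f hf
  rw [Submodule.mem_bot] at hf ⊢
  rw [hf]; ext x; rfl

theorem inv_iSup {ι : Sort*} {P : ι → Submodule ℂ (EE H J)} (hP : ∀ i, Inv (P i)) :
    Inv (⨆ i, P i) := by
  intro k f hf
  induction hf using Submodule.iSup_induction' with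
  | mem i x hx => exact Submodule.mem_iSup_of_mem i (hP i k x hx)
  | zero =>
    have : tr k (0 : EE H J) = 0 := by ext x; rfl
    rw [this]; exact Submodule.zero_mem _
  | add x y _ _ hx hy => rw [tr_add]; exact Submodule.add_mem _ hx hy

theorem dm_finset_sup_le [Fintype J] {ι : Type} (P : ι → Submodule ℂ (EE H J))
    (hP : ∀ i, Inv (P i)) (s : Finset ι) :
    Inv (s.sup P) ∧ dm (s.sup P) ≤ ∑ i ∈ s, dm (P i) := by
  classical
  induction s using Finset.induction_on with
  | empty => simp [dm_bot, inv_bot]
  | insert a s ha ih =>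
    rw [Finset.sup_insert, Finset.sum_insert ha]
    exact ⟨(hP a).sup ih.1, (dm_sup_le (hP a) ih.1).trans (by linarith [ih.2])⟩

/-- Continuity along increasing sequences. -/
theorem dm_iSup_tendsto [Fintype J] {ι : Type} [Preorder ι] (P : ι → Submodule ℂ (EE H J))
    (hm : Monotone P) : Tendsto (fun i => dm (P i)) atTop (𝓝 (dm (⨆ i, P i))) := by
  have hcl : (⨆ i, (P i).topologicalClosure).topologicalClosure
      = (⨆ i, P i).topologicalClosure := by
    apply le_antisymm
    · apply Submodule.topologicalClosure_minimal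
      · apply iSup_le
        intro i
        exact Submodule.topologicalClosure_mono (le_iSup P i)
      · exact Submodule.isClosed_topologicalClosure _
    · apply Submodule.topologicalClosure_mono
      apply iSup_mono
      intro i
      exact Submodule.le_topologicalClosure _
  have h1 : dm (⨆ i, P i) = tau (⨆ i, (P i).topologicalClosure).topologicalClosure :=
    tau_congr hcl.symm
  rw [h1]
  unfold dm tau
  apply tendsto_finsetSum
  intro j _
  exact ((Submodule.starProjection_tendsto_closure_iSup (fun i => (P i).topologicalClosure)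
    (fun i i' h => Submodule.topologicalClosure_mono (hm h)) (dl ((1 : H), j))).norm).pow 2

/-- Countable subadditivity. -/
theorem dm_iSup_le [Fintype J] {ι : Type} (P : ι → Submodule ℂ (EE H J))
    (hP : ∀ i, Inv (P i)) (c : ℝ) (hc : ∀ s : Finset ι, ∑ i ∈ s, dm (P i) ≤ c) :
    dm (⨆ i, P i) ≤ c := by
  classical
  have h1 : (⨆ i, P i) = ⨆ s : Finset ι, s.sup P := by
    apply le_antisymm
    · apply iSup_le
      intro i
      refine le_trans ?_ (le_iSup (fun s : Finset ι => s.sup P) {i})
      simp
    · apply iSup_le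
      intro s
      apply Finset.sup_le
      intro i _
      exact le_iSup P i
  rw [h1]
  refine le_of_tendsto (dm_iSup_tendsto (fun s : Finset ι => s.sup P) ?_) ?_
  · intro s t hst
    exact Finset.sup_mono hst
  · filter_upwards with s
    exact (dm_finset_sup_le P hP s).2.trans (hc s)

/-- Dimension of the orthogonal complement. -/
theorem tau_orth [Fintype J] (P : Submodule ℂ (EE H J)) [P.HasOrthogonalProjection] :
    tau Pᗮ = Fintype.card J - tau P := by
  unfold tau
  have : (Fintype.card J : ℝ) = ∑ j : J, (1 : ℝ) := by simp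
  rw [this, ← Finset.sum_sub_distrib]
  refine Finset.sum_congr rfl fun j _ => ?_
  have h := Submodule.norm_sq_eq_add_norm_sq_starProjection (dl ((1 : H), j)) P
  rw [norm_dl, one_pow] at h
  linarith

/-- A nonzero closed invariant submodule has positive dimension. -/
theorem dm_pos [Fintype J] (P : Submodule ℂ (EE H J)) (hP : Inv P) (f : EE H J) (hf : f ∈ P)
    (h0 : f ≠ 0) : 0 < dm P := by
  by_contra hc
  have h1 : dm P = 0 := le_antisymm (not_lt.1 hc) (dm_nonneg P)
  unfold dm tau at h1
  rw [Finset.sum_eq_zero_iff_of_nonneg (fun _ _ => by positivity)] at h1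
  apply h0
  ext ⟨h, j⟩
  have h2 := h1 j (Finset.mem_univ j)
  have h3 : P.topologicalClosure.starProjection (dl ((1 : H), j)) = 0 := by
    have : ‖P.topologicalClosure.starProjection (dl ((1 : H), j))‖ = 0 := by
      exact pow_eq_zero_iff (two_ne_zero) |>.1 h2
    exact norm_eq_zero.1 this
  have h4 : P.topologicalClosure.starProjection (dl (h, j)) = 0 := by
    have : dl (h, j) = tr h (dl ((1 : H), j)) := by rw [tr_dl, mul_one]
    rw [this, hP.closure.proj, h3]
    ext x; rfl
  have h5 : dl (h, j) ∈ P.topologicalClosureᗮ := (Submodule.starProjection_apply_eq_zero_iff _).1 h4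
  have h6 : ⟪dl (h, j), f⟫_ℂ = 0 :=
    Submodule.inner_left_of_mem_orthogonal (Submodule.le_topologicalClosure _ hf) h5
  rw [inner_dl_left] at h6
  exact h6

end

end Pool.Agent.TH714.L2
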